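import Pool.Agent.Helper32.SixThree.Final

/-!
A lower bound for the extremal function of the (6,3) problem with the explicit constant
`2 sqrt (log (4 / 3)) = 1.0727...` in the exponent:
for every `ε > 0` and all large `n`,
`ex^3(n, 6, 3) ≥ n ^ 2 exp (-(2 sqrt (log (4 / 3)) + ε) sqrt (log n))`.
-/

namespace Pool.Agent.Results.MP_3cac6c_co.ConstantLowerBound

open Pool.Agent.Helper32.SixThree Filter

theorem result (ε : ℝ) (hε : 0 < ε) : ∀ᶠ n : ℕ in atTop,
    (n : ℝ) ^ 2 * Real.exp (-((2 * √(Real.log (4 / 3)) + ε) * √(Real.log n))) ≤ ex 3 n 6 3 :=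
  final ε hε

end Pool.Agent.Results.MP_3cac6c_co.ConstantLowerBound
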