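import Pool.Agent.SXQ.Fin

/-!
The (6,3) problem for 3-graphs with a quasirandom group of automorphisms.

First part: if the group `A` has no nontrivial real representation of degree less than `D`, then a (6,3)-free 3-graph on `n`
vertices on which `A` acts has at most `(4/D)^(1/3) n²` edges with a vertex moved by `A`. Second and third part: finite perfect
groups all of whose nontrivial quotients are large, in particular finite non-abelian simple groups. Fourth and fifth part:
`SL₂(𝔽_p)` and the alternating groups, with a power of `p` resp. of the degree. Sixth part: all groups which are transitive on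
the vertices and have no nontrivial intransitive normal subgroup (for instance all vertex-primitive groups) and few orbits on
the edges (`S` contains a representative of every orbit). The last part are lower bounds: a power of `p` is necessary for `SL₂(𝔽_p)`, and for groups
which are not perfect or have a small nontrivial quotient there is no such saving.
-/

namespace Pool.Agent.Results.MP_3cac6c_co.QuasirandomSymmetry

open Pool.Agent.RSV Pool.Agent.SXS Pool.Agent.SXQ

theorem result :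
    (∀ (A : Type) [Group A] (D : ℕ), 1 ≤ D → QR A D →
      ∀ (n : ℕ) (H : Finset (Finset (Fin n))) (φ : A →* Equiv.Perm (Fin n)),
        Three H → SixThree H → Auts H φ →
        ((moved H φ).card : ℝ) ≤ (4 / D : ℝ) ^ (1 / 3 : ℝ) * (n : ℝ) ^ 2) ∧
    (∀ (A : Type) [Group A] [Finite A] (N : ℕ), 2 ≤ N → commutator A = ⊤ →
      (∀ K : Subgroup A, K.Normal → K ≠ ⊤ → N ≤ K.index) →
      ∀ (n : ℕ) (H : Finset (Finset (Fin n))) (φ : A →* Equiv.Perm (Fin n)),
        Three H → SixThree H → Auts H φ →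
        ((moved H φ).card : ℝ) ≤ 3 * (n : ℝ) ^ 2 * Real.log N ^ (-(1 / 6) : ℝ)) ∧
    (∀ (A : Type) [Group A] [Finite A], IsSimpleGroup A → (¬ ∀ a b : A, a * b = b * a) →
      ∀ (n : ℕ) (H : Finset (Finset (Fin n))) (φ : A →* Equiv.Perm (Fin n)),
        Three H → SixThree H → Auts H φ →
        ((moved H φ).card : ℝ) ≤ 3 * (n : ℝ) ^ 2 * Real.log (Nat.card A) ^ (-(1 / 6) : ℝ)) ∧
    (∀ p : ℕ, p.Prime → p ≠ 2 →
      ∀ (n : ℕ) (H : Finset (Finset (Fin n)))
        (φ : Matrix.SpecialLinearGroup (Fin 2) (ZMod p) →* Equiv.Perm (Fin n)),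
        Three H → SixThree H → Auts H φ →
        ((moved H φ).card : ℝ) ≤ 2 * (n : ℝ) ^ 2 * ((p : ℝ) - 1) ^ (-(1 / 3) : ℝ)) ∧
    (∀ m : ℕ, 5 ≤ m → ∀ (n : ℕ) (H : Finset (Finset (Fin n)))
        (φ : alternatingGroup (Fin m) →* Equiv.Perm (Fin n)),
        Three H → SixThree H → Auts H φ →
        ((moved H φ).card : ℝ) ≤ 3 * (n : ℝ) ^ 2 * (m : ℝ) ^ (-(1 / 3) : ℝ)) ∧
    (∀ n : ℕ, 6 ≤ n → ∀ (A : Type) [Group A] (H S : Finset (Finset (Fin n)))
        (φ : A →* Equiv.Perm (Fin n)), Three H → SixThree H → Auts H φ → Tran φ →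
        (∀ K : Subgroup A, K.Normal →
          (∀ g ∈ K, φ g = 1) ∨ ∀ x y : Fin n, ∃ g ∈ K, φ g x = y) →
        (∀ e ∈ H, ∃ s ∈ S, ∃ g : A, s.image (φ g) = e) → S.card < n →
        (H.card : ℝ) ≤ (n : ℝ) ^ 2 * Real.log ((n : ℝ) / S.card) ^ (-(1 / 6) : ℝ)) ∧
    (∃ C > (0 : ℝ),
      (∀ p n : ℕ, p.Prime → Nat.card (Matrix.SpecialLinearGroup (Fin 2) (ZMod p)) ∣ n →
        3 * Nat.card (Matrix.SpecialLinearGroup (Fin 2) (ZMod p)) ≤ n →
        ∃ (H : Finset (Finset (Fin n)))
          (φ : Matrix.SpecialLinearGroup (Fin 2) (ZMod p) →* Equiv.Perm (Fin n)),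
          Three H ∧ SixThree H ∧ Auts H φ ∧ Free φ ∧
          (n : ℝ) ^ 2 / (p + 1) * Real.exp (-C * √(Real.log n)) ≤ H.card) ∧
      (∀ (A : Type) [Group A] [Finite A] (B : ℕ → Subgroup A) (r n : ℕ), Chain B r →
        Nat.card A ∣ n → 3 * Nat.card A ≤ n →
        ∃ (H : Finset (Finset (Fin n))) (φ : A →* Equiv.Perm (Fin n)),
          Three H ∧ SixThree H ∧ Auts H φ ∧ Free φ ∧
          (n : ℝ) ^ 2 * ((Nat.card (B r) : ℝ) / Nat.card A) *
            Real.exp (-C * √((r + 1) * Real.log n)) ≤ H.card) ∧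
      (∀ (A : Type) [Group A] [Finite A] (K : Subgroup A), K.Normal → K ≠ ⊤ →
        ∀ n : ℕ, K.index ∣ n → 3 * K.index ≤ n →
        (∃ (H : Finset (Finset (Fin n))) (φ : A →* Equiv.Perm (Fin n)),
          Three H ∧ SixThree H ∧ Auts H φ ∧ (∀ v, ∃ g, φ g v ≠ v) ∧
          (n : ℝ) ^ 2 / K.index * Real.exp (-C * √(Real.log n)) ≤ H.card) ∧
        ((∃ t : A, ∀ x : A, ∃ k : ℤ, x * t ^ k ∈ K) →
          ∃ (H : Finset (Finset (Fin n))) (φ : A →* Equiv.Perm (Fin n)),
            Three H ∧ SixThree H ∧ Auts H φ ∧ (∀ v, ∃ g, φ g v ≠ v) ∧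
            (n : ℝ) ^ 2 * Real.exp (-C * √(Real.log n)) ≤ H.card))) :=
  all_parts

end Pool.Agent.Results.MP_3cac6c_co.QuasirandomSymmetry
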