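import Pool.Agent.R63.Main

/-!
The (6,3) problem and the triangle removal lemma are quantitatively equivalent.

`f n` is `ex^3(n, 6, 3)`, `tr G` is the number of triangles of a graph `G`, `tau G` the least number of edges whose removal
destroys all triangles of `G`. First part: an upper bound for `tau G` by the values of `f` at the powers of two. Second part:
the converse. The other parts are the consequences for savings `exp (-c (log n) ^ α)` and for powers of the logarithm.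
-/

namespace Pool.Agent.Results.MP_3cac6c_co.RemovalEquivalence

open Pool.Agent.R63 Finset

theorem result :
    (∀ n i₀ : ℕ, 3 ≤ i₀ → 2 ^ i₀ ≤ n → ∀ G : SimpleGraph (Fin n),
      tr G * 8 ^ i₀ ≤ 1000 * f (2 ^ i₀) * n ^ 3 →
      (tau G : ℝ) ≤ 6000 * (n : ℝ) ^ 2 * ∑ i ∈ Icc i₀ (Nat.log 2 n), (f (2 ^ i) : ℝ) / 4 ^ i) ∧
    (∀ n : ℕ, 6 ≤ n → ∃ G : SimpleGraph (Fin n), 6 * tr G ≤ n ^ 2 ∧ 3 * f n ≤ 3 * tau G + 2 * n) ∧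
    (∀ α : ℝ, 0 < α → α ≤ 1 →
      ((∃ c > (0 : ℝ), ∃ C : ℝ, ∀ n : ℕ, 2 ≤ n →
        (f n : ℝ) ≤ C * (n : ℝ) ^ 2 * Real.exp (-(c * Real.log n ^ α))) ↔
      ∃ c > (0 : ℝ), ∃ C : ℝ, ∀ δ : ℝ, 0 < δ → δ < 1 → ∀ (n : ℕ) (G : SimpleGraph (Fin n)),
        (tr G : ℝ) ≤ δ * (n : ℝ) ^ 3 →
        (tau G : ℝ) ≤ C * (n : ℝ) ^ 2 * Real.exp (-(c * Real.log (1 / δ) ^ α)))) ∧
    (∀ K : ℝ, 0 < K →
      ((∃ C : ℝ, ∀ n : ℕ, 2 ≤ n → (f n : ℝ) ≤ C * (n : ℝ) ^ 2 * Real.log n ^ (-(K + 1))) →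
        ∃ C : ℝ, ∀ δ : ℝ, 0 < δ → δ < 1 / 2 → ∀ (n : ℕ) (G : SimpleGraph (Fin n)),
          (tr G : ℝ) ≤ δ * (n : ℝ) ^ 3 →
          (tau G : ℝ) ≤ C * (n : ℝ) ^ 2 * Real.log (1 / δ) ^ (-K)) ∧
      ((∃ C : ℝ, ∀ δ : ℝ, 0 < δ → δ < 1 / 2 → ∀ (n : ℕ) (G : SimpleGraph (Fin n)),
          (tr G : ℝ) ≤ δ * (n : ℝ) ^ 3 →
          (tau G : ℝ) ≤ C * (n : ℝ) ^ 2 * Real.log (1 / δ) ^ (-K)) →
        ∃ C : ℝ, ∀ n : ℕ, 2 ≤ n → (f n : ℝ) ≤ C * (n : ℝ) ^ 2 * Real.log n ^ (-K))) :=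
  ⟨fun _ _ h3 hn G ht => mainA h3 hn G ht, fun _ hn => rem hn, fun _ h0 h1 => corE h0 h1,
    fun _ hK => ⟨corP1 hK, corP2 hK⟩⟩

end Pool.Agent.Results.MP_3cac6c_co.RemovalEquivalence
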