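import Pool.Agent.SXT.Fin

/-!
The (6,3) problem for 3-graphs with a group of automorphisms.

First and second part: for a free action of `(ℤ/2)^k` the largest number of edges of a (6,3)-free 3-graph on `n` vertices
is `n² (3 / 2^(5/3))^k` up to a factor `exp (O(√(log n)))` if there are at least three orbits (`3 * 2^k ≤ n`), and at most
`2 n / 3` if there are at most two orbits. Third part: all actions of `(ℤ/2)^k` whose orbits have at least `K` points, with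
the same exponent. Fourth part: the analogous upper bounds for all primes `p`, with a base at most `19/20` for all `p`.
Fifth and sixth part: for a free action of an abelian group of rank `r` (every finite abelian group of rank `r` is a product
of `r` cyclic groups of orders divisible by a common prime) the growth is `n² exp (- Θ(r))`, with absolute constants, up to a
factor `exp (O(√(log n)))`. Seventh part: free actions of arbitrary finite groups of bounded exponent.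
-/

namespace Pool.Agent.Results.MP_3cac6c_co.Symmetry

open Pool.Agent.RSV Pool.Agent.SXS Finset

theorem result :
    (∀ n k : ℕ, 6 ≤ n → ∀ (H : Finset (Finset (Fin n)))
      (φ : Multiplicative (Fin k → ZMod 2) →* Equiv.Perm (Fin n)),
      Three H → SixThree H → Auts H φ → Free φ →
      (H.card : ℝ) ≤ (n : ℝ) ^ 2 * (3 / 2 ^ (5 / 3 : ℝ)) ^ k ∧
      (n < 3 * 2 ^ k → 3 * H.card ≤ 2 * n)) ∧
    (∃ C > (0 : ℝ), ∀ n k : ℕ, 2 ^ k ∣ n → 3 * 2 ^ k ≤ n →
      ∃ (H : Finset (Finset (Fin n)))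
        (φ : Multiplicative (Fin k → ZMod 2) →* Equiv.Perm (Fin n)),
        Three H ∧ SixThree H ∧ Auts H φ ∧ Free φ ∧
        (n : ℝ) ^ 2 * (3 / 2 ^ (5 / 3 : ℝ)) ^ k * Real.exp (-C * √(Real.log n)) ≤ H.card) ∧
    (∀ n k K : ℕ, 6 ≤ n → 1 ≤ K → ∀ (H : Finset (Finset (Fin n)))
      (φ : Multiplicative (Fin k → ZMod 2) →* Equiv.Perm (Fin n)),
      Three H → SixThree H → Auts H φ → Orb φ K →
      (H.card : ℝ) ≤ 4 * (n : ℝ) ^ 2 * (K : ℝ) ^ (-(5 / 3 - Real.log 3 / Real.log 2))) ∧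
    (∀ p : ℕ, p.Prime →
      (∀ t : ℝ, 0 < t → t ≤ 1 → ∀ n k : ℕ, 6 ≤ n → ∀ (H : Finset (Finset (Fin n)))
        (φ : Multiplicative (Fin k → ZMod p) →* Equiv.Perm (Fin n)),
        Three H → SixThree H → Auts H φ →
        (Free φ → (H.card : ℝ) ≤ (n : ℝ) ^ 2 *
          (t ^ (-(((p : ℝ) - 1) / 3)) * (∑ j ∈ range p, t ^ j) / p) ^ k) ∧
        (∀ d K : ℕ, p ^ (d + 2) ≤ K → Orb φ K → (H.card : ℝ) ≤ 3 * (n : ℝ) ^ 2 *
          (t ^ (-(((p : ℝ) - 1) / 3)) * (∑ j ∈ range p, t ^ j) / p) ^ d)) ∧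
      ∃ t : ℝ, 0 < t ∧ t < 1 ∧
        t ^ (-(((p : ℝ) - 1) / 3)) * (∑ j ∈ range p, t ^ j) / p ≤ 19 / 20) ∧
    (∀ (r n p : ℕ) (N : Fin r → ℕ), 6 ≤ n → p.Prime → (∀ i, 1 ≤ N i) → (∀ i, p ∣ N i) →
      ∀ (H : Finset (Finset (Fin n))) (φ : Multiplicative (∀ i, ZMod (N i)) →* Equiv.Perm (Fin n)),
        Three H → SixThree H → Auts H φ → Free φ → (H.card : ℝ) ≤ (n : ℝ) ^ 2 * (19 / 20) ^ r) ∧
    (∃ C > (0 : ℝ), ∀ (r n : ℕ) (N : Fin r → ℕ), (∀ i, 1 ≤ N i) →
      (∏ i, N i) ∣ n → 3 * ∏ i, N i ≤ n →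
      ∃ (H : Finset (Finset (Fin n))) (φ : Multiplicative (∀ i, ZMod (N i)) →* Equiv.Perm (Fin n)),
        Three H ∧ SixThree H ∧ Auts H φ ∧ Free φ ∧
        (n : ℝ) ^ 2 * Real.exp (-C * (r + √(Real.log n))) ≤ H.card) ∧
    (∀ e : ℕ, 1 ≤ e → ∃ c > (0 : ℝ), ∀ n : ℕ, 6 ≤ n →
      ∀ (A : Type) [Group A] [Finite A], (∀ a : A, a ^ e = 1) →
        ∀ (H : Finset (Finset (Fin n))) (φ : A →* Equiv.Perm (Fin n)),
          Three H → SixThree H → Auts H φ → Free φ →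
          (H.card : ℝ) ≤ (n : ℝ) ^ 2 * Real.exp (-c * √(Real.log (Nat.card A))) ∧
          ((∀ a b : A, a * b = b * a) →
            (H.card : ℝ) ≤ (n : ℝ) ^ 2 * (Nat.card A : ℝ) ^ (-c))) :=
  Pool.Agent.SXT.all_parts

end Pool.Agent.Results.MP_3cac6c_co.Symmetry
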